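import Mathlib

/-!
# Alternations and sign patterns
-/

set_option autoImplicit false

open Finset Real

namespace Pool.Agent.H589.Osc

noncomputable section

/-- `P` takes at `m` points `x 0 < x 1 < ...` of `[0, 2 π]` alternately values larger than `B` and
smaller than `-B`. -/
def Alternates (P : ℝ → ℝ) (B : ℝ) (m : ℕ) : Prop :=
  ∃ (ε : ℝ) (x : ℕ → ℝ), (ε = 1 ∨ ε = -1) ∧ (∀ i j, i < j → j < m → x i < x j) ∧
    ∀ i < m, 0 ≤ x i ∧ x i ≤ 2 * π ∧ B < ε * (-1) ^ i * P (x i)

/-- alternating sequences in `[a, b]` that begin with a value `ε P < -B`. -/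
def Alt (P : ℝ → ℝ) (B ε a b : ℝ) (m : ℕ) : Prop :=
  ∃ x : ℕ → ℝ, (∀ i j, i < j → j < m → x i < x j) ∧
    ∀ i < m, a ≤ x i ∧ x i ≤ b ∧ B < -ε * (-1) ^ i * P (x i)

/-- the sign pattern of a list of points: `+` to the right of the last one. -/
def sg (l : List ℝ) (x : ℝ) : ℝ := (l.map fun a => Real.sin ((x - a) / 2)).prod

lemma Alt.of_sub {P : ℝ → ℝ} {B ε a b : ℝ} {m n : ℕ} (h : Alt P B ε a b m) (hn : n ≤ m) :
    Alt P B ε a b n := by
  obtain ⟨x, h1, h2⟩ := h
  exact ⟨x, fun i j hij hj => h1 i j hij (lt_of_lt_of_le hj hn), fun i hi => h2 i (by omega)⟩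

/-- The partition of an interval: `l` has at most `m` points, and to the right of `x` there are
`k` of them. -/
lemma partition (P : ℝ → ℝ) (hP : Continuous P) (B : ℝ) (hB : 0 ≤ B) (m : ℕ) :
    ∀ (a b ε : ℝ), a ≤ b → (ε = 1 ∨ ε = -1) → ¬ Alt P B ε a b (m + 1) →
      ∃ l : List ℝ, l.length ≤ m ∧ (∀ y ∈ l, a ≤ y ∧ y ≤ b) ∧
        ∀ x, a < x → x < b → x ∉ l →
          -B ≤ ε * (-1) ^ (l.countP (fun y => decide (y < x))) * P x := by
  induction m with
  | zero =>
    intro a b ε _ _ h
    refine ⟨[], le_rfl, by simp, ?_⟩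
    intro x hax hxb _
    simp only [List.countP_nil, pow_zero, mul_one]
    by_contra hc
    push Not at hc
    apply h
    refine ⟨fun _ => x, fun i j hij hj => by omega, fun i hi => ⟨hax.le, hxb.le, ?_⟩⟩
    have : i = 0 := by omega
    rw [this, pow_zero]
    linarith
  | succ m ih =>
    intro a b ε hab hε h
    by_cases hv : ∃ x, a ≤ x ∧ x ≤ b ∧ ε * P x < -B
    · -- the first violation
      set V : Set ℝ := {x | a ≤ x ∧ x ≤ b ∧ ε * P x < -B} with hV
      have hVne : V.Nonempty := hv
      have hVbd : BddBelow V := ⟨a, fun x hx => hx.1⟩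
      set y := sInf V with hy
      have hya : a ≤ y := le_csInf hVne fun x hx => hx.1
      have hyb : y ≤ b := by
        obtain ⟨x, hx⟩ := hVne
        exact (csInf_le hVbd hx).trans hx.2.1
      have hεP : Continuous fun x => ε * P x := continuous_const.mul hP
      have hyle : ε * P y ≤ -B := by
        have hcl : y ∈ closure V := csInf_mem_closure hVne hVbd
        have hsub : V ⊆ {x | ε * P x ≤ -B} := fun x hx => hx.2.2.le
        have hclosed : IsClosed {x | ε * P x ≤ -B} := isClosed_le hεP continuous_const
        exact (closure_minimal hsub hclosed) hcl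
      have hnalt : ¬ Alt P B (-ε) y b (m + 1) := by
        rintro ⟨x, hx1, hx2⟩
        apply h
        have hx0 := hx2 0 (by omega)
        rw [pow_zero, neg_neg, mul_one] at hx0
        have hyx0 : y < x 0 := by
          refine lt_of_le_of_ne hx0.1 ?_
          intro heq
          rw [← heq] at hx0
          linarith [hx0.2.2]
        obtain ⟨v, hvV, hvx⟩ := exists_lt_of_csInf_lt hVne hyx0
        refine ⟨fun i => if i = 0 then v else x (i - 1), ?_, ?_⟩
        · intro i j hij hj
          simp only
          rw [if_neg (show j ≠ 0 by omega)]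
          by_cases hi : i = 0
          · rw [if_pos hi]
            by_cases hj1 : j = 1
            · rw [hj1]; exact hvx
            · exact hvx.trans (hx1 0 (j - 1) (by omega) (by omega))
          · rw [if_neg hi]
            exact hx1 (i - 1) (j - 1) (by omega) (by omega)
        · intro i hi
          simp only
          by_cases hi0 : i = 0
          · rw [if_pos hi0, hi0, pow_zero]
            refine ⟨hvV.1, hvV.2.1, ?_⟩
            have := hvV.2.2
            linarith
          · rw [if_neg hi0]
            obtain ⟨h1, h2, h3⟩ := hx2 (i - 1) (by omega)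
            refine ⟨hya.trans h1, h2, ?_⟩
            have hpow : ((-1 : ℝ)) ^ i = -1 * (-1) ^ (i - 1) := by
              conv_lhs => rw [show i = (i - 1) + 1 by omega]
              rw [pow_succ]
              ring
            rw [hpow]
            rw [neg_neg] at h3
            calc B < ε * (-1) ^ (i - 1) * P (x (i - 1)) := h3
              _ = _ := by ring
      obtain ⟨l, hl1, hl2, hl3⟩ := ih y b (-ε) hyb (by
        rcases hε with h | h
        · right; rw [h]
        · left; rw [h]; norm_num) hnalt
      refine ⟨y :: l, by simpa using hl1, ?_, ?_⟩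
      · intro z hz
        rw [List.mem_cons] at hz
        rcases hz with hz | hz
        · rw [hz]; exact ⟨hya, hyb⟩
        · exact ⟨hya.trans (hl2 z hz).1, (hl2 z hz).2⟩
      · intro x hax hxb hxl
        rw [List.mem_cons, not_or] at hxl
        rcases lt_or_ge x y with hxy | hxy
        · have hc : (y :: l).countP (fun y => decide (y < x)) = 0 := by
            rw [List.countP_eq_zero]
            intro z hz
            rw [List.mem_cons] at hz
            simp only [decide_eq_true_eq, not_lt]
            rcases hz with hz | hz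
            · rw [hz]; exact hxy.le
            · exact hxy.le.trans (hl2 z hz).1
          rw [hc, pow_zero, mul_one]
          by_contra hcon
          push Not at hcon
          have : y ≤ x := csInf_le hVbd ⟨hax.le, hxb.le, hcon⟩
          linarith
        · have hxy' : y < x := lt_of_le_of_ne hxy (Ne.symm hxl.1)
          have h1 := hl3 x hxy' hxb hxl.2
          rw [List.countP_cons]
          have h2 : (decide (y < x)) = true := by simpa using hxy'
          rw [h2, if_pos rfl, pow_succ]
          calc -B ≤ -ε * (-1) ^ (l.countP (fun y => decide (y < x))) * P x := h1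
            _ = _ := by ring
    · push Not at hv
      refine ⟨[], Nat.zero_le _, by simp, ?_⟩
      intro x hax hxb _
      simp only [List.countP_nil, pow_zero, mul_one]
      exact hv x hax.le hxb.le

lemma sg_sign (l : List ℝ) (hl : ∀ y ∈ l, 0 ≤ y ∧ y ≤ 2 * π) (x : ℝ) (hx0 : 0 < x)
    (hx1 : x < 2 * π) (hxl : x ∉ l) :
    0 < (-1) ^ (l.length + l.countP (fun y => decide (y < x))) * sg l x := by
  induction l with
  | nil => simp [sg]
  | cons y l ih =>
    rw [List.mem_cons, not_or] at hxl
    have ih' := ih (fun z hz => hl z (List.mem_cons_of_mem _ hz)) hxl.2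
    have hy := hl y List.mem_cons_self
    have hs : sg (y :: l) x = Real.sin ((x - y) / 2) * sg l x := by simp [sg]
    rw [hs, List.length_cons, List.countP_cons]
    rcases lt_or_gt_of_ne hxl.1 with h | h
    · have h2 : (decide (y < x)) = false := by simpa using h.le
      rw [h2]
      have h3 : Real.sin ((x - y) / 2) < 0 := by
        apply Real.sin_neg_of_neg_of_neg_pi_lt
        · linarith
        · linarith
      have e : (-1 : ℝ) ^ (l.length + 1 + (l.countP (fun y => decide (y < x)) +
          if false = true then 1 else 0)) * (Real.sin ((x - y) / 2) * sg l x) =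
          (-Real.sin ((x - y) / 2)) * ((-1) ^ (l.length + l.countP (fun y => decide (y < x))) *
            sg l x) := by
        simp only [Bool.false_eq_true, if_false, add_zero]
        rw [show l.length + 1 + l.countP (fun y => decide (y < x)) =
          (l.length + l.countP (fun y => decide (y < x))) + 1 by ring, pow_succ]
        ring
      rw [e]
      exact mul_pos (by linarith) ih'
    · have h2 : (decide (y < x)) = true := by simpa using h
      rw [h2]
      have h3 : 0 < Real.sin ((x - y) / 2) := by
        apply Real.sin_pos_of_pos_of_lt_pi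
        · linarith
        · linarith
      have e : (-1 : ℝ) ^ (l.length + 1 + (l.countP (fun y => decide (y < x)) +
          if true = true then 1 else 0)) * (Real.sin ((x - y) / 2) * sg l x) =
          (Real.sin ((x - y) / 2)) * ((-1) ^ (l.length + l.countP (fun y => decide (y < x))) *
            sg l x) := by
        simp only [if_true]
        rw [show l.length + 1 + (l.countP (fun y => decide (y < x)) + 1) =
          (l.length + l.countP (fun y => decide (y < x))) + 2 by ring, pow_add]
        ring
      rw [e]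
      exact mul_pos h3 ih'

lemma sg_periodic (l : List ℝ) (hl : Even l.length) : Function.Periodic (sg l) (2 * π) := by
  intro x
  have h : ∀ l : List ℝ, sg l (x + 2 * π) = (-1) ^ l.length * sg l x := by
    intro l
    induction l with
    | nil => simp [sg]
    | cons y l ih =>
      have hs : ∀ z, sg (y :: l) z = Real.sin ((z - y) / 2) * sg l z := by intro z; simp [sg]
      rw [hs, hs, ih, List.length_cons, pow_succ]
      have : (x + 2 * π - y) / 2 = (x - y) / 2 + π := by ring
      rw [this, Real.sin_add_pi]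
      ring
  rw [h l, hl.neg_one_pow, one_mul]

/-- **Sign pattern.** -/
lemma pattern (P : ℝ → ℝ) (hP : Continuous P) (hper : Function.Periodic P (2 * π)) (B : ℝ)
    (hB : 0 ≤ B) (t : ℕ) (h : ¬ Alternates P B (t + 2)) :
    ∃ (l : List ℝ) (ε : ℝ), (ε = 1 ∨ ε = -1) ∧ Even l.length ∧ l.length ≤ t + 1 ∧
      (t = 0 → l.length = 0) ∧
      ∀ x, -B * |sg l x| ≤ ε * sg l x * P x := by
  -- choice of the first sign
  have hfirst : ∃ ε : ℝ, (ε = 1 ∨ ε = -1) ∧ ¬ Alt P B ε 0 (2 * π) (t + 1) := by
    by_contra hc
    push Not at hc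
    obtain ⟨x, hx1, hx2⟩ := hc 1 (Or.inl rfl)
    obtain ⟨y, hy1, hy2⟩ := hc (-1) (Or.inr rfl)
    -- helper: prepend
    have key : ∀ (η : ℝ) (u v : ℕ → ℝ), (η = 1 ∨ η = -1) → u 0 < v 0 →
        (∀ i j, i < j → j < t + 1 → v i < v j) →
        (0 ≤ u 0 ∧ u 0 ≤ 2 * π ∧ B < η * P (u 0)) →
        (∀ i < t + 1, 0 ≤ v i ∧ v i ≤ 2 * π ∧ B < -η * (-1) ^ i * P (v i)) → False := by
      intro η u v hη huv hv1 hu hv2
      apply h
      refine ⟨η, fun i => if i = 0 then u 0 else v (i - 1), hη, ?_, ?_⟩
      · intro i j hij hj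
        simp only
        rw [if_neg (show j ≠ 0 by omega)]
        by_cases hi : i = 0
        · rw [if_pos hi]
          by_cases hj1 : j = 1
          · rw [hj1]; exact huv
          · exact huv.trans (hv1 0 (j - 1) (by omega) (by omega))
        · rw [if_neg hi]
          exact hv1 (i - 1) (j - 1) (by omega) (by omega)
      · intro i hi
        simp only
        by_cases hi0 : i = 0
        · rw [if_pos hi0, hi0, pow_zero, mul_one]
          exact hu
        · rw [if_neg hi0]
          obtain ⟨h1, h2, h3⟩ := hv2 (i - 1) (by omega)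
          refine ⟨h1, h2, ?_⟩
          have hpow : ((-1 : ℝ)) ^ i = -1 * (-1) ^ (i - 1) := by
            conv_lhs => rw [show i = (i - 1) + 1 by omega]
            rw [pow_succ]
            ring
          rw [hpow]
          calc B < -η * (-1) ^ (i - 1) * P (v (i - 1)) := h3
            _ = _ := by ring
    have hx0 := hx2 0 (by omega)
    have hy0 := hy2 0 (by omega)
    rw [pow_zero, mul_one] at hx0 hy0
    rcases lt_trichotomy (x 0) (y 0) with hlt | heq | hgt
    · refine key (-1) x y (Or.inr rfl) hlt hy1 ⟨hx0.1, hx0.2.1, ?_⟩ ?_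
      · linarith [hx0.2.2]
      · intro i hi
        exact hy2 i hi
    · rw [heq] at hx0
      linarith [hx0.2.2, hy0.2.2]
    · refine key 1 y x (Or.inl rfl) hgt hx1 ⟨hy0.1, hy0.2.1, ?_⟩ ?_
      · linarith [hy0.2.2]
      · intro i hi
        exact hx2 i hi
  obtain ⟨ε, hε, hnalt⟩ := hfirst
  obtain ⟨l, hl1, hl2, hl3⟩ := partition P hP B hB t 0 (2 * π) ε Real.two_pi_pos.le hε hnalt
  -- make the number of points even
  obtain ⟨l', hl'1, hl'2, hl'3, hl'4, hl'5⟩ : ∃ l' : List ℝ, Even l'.length ∧ l'.length ≤ t + 1 ∧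
      (t = 0 → l'.length = 0) ∧ (∀ y ∈ l', 0 ≤ y ∧ y ≤ 2 * π) ∧
      ∀ x, 0 < x → x < 2 * π → x ∉ l' → x ∉ l ∧
        ∃ δ : ℝ, (δ = 1 ∨ δ = -1) ∧ (δ = (-1) ^ (l'.length + l.length)) ∧
        (-1) ^ (l'.countP (fun y => decide (y < x))) =
          δ * (-1) ^ (l.countP (fun y => decide (y < x))) := by
    by_cases hev : Even l.length
    · refine ⟨l, hev, by omega, fun h => by omega, hl2, fun x _ _ hx => ⟨hx, 1, Or.inl rfl, ?_, ?_⟩⟩
      · rw [← two_mul, pow_mul]; norm_num
      · rw [one_mul]
    · refine ⟨0 :: l, ?_, by simpa using hl1, ?_, ?_, ?_⟩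
      · rw [List.length_cons]
        rw [Nat.even_add_one]
        exact hev
      · intro h
        exfalso
        apply hev
        have : l.length = 0 := by omega
        rw [this]
        exact ⟨0, rfl⟩
      · intro y hy
        rw [List.mem_cons] at hy
        rcases hy with hy | hy
        · rw [hy]; exact ⟨le_rfl, Real.two_pi_pos.le⟩
        · exact hl2 y hy
      · intro x hx0 _ hx
        rw [List.mem_cons, not_or] at hx
        refine ⟨hx.2, -1, Or.inr rfl, ?_, ?_⟩
        · rw [List.length_cons, show l.length + 1 + l.length = 2 * l.length + 1 by ring, pow_succ,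
            pow_mul]
          norm_num
        · rw [List.countP_cons]
          have h2 : (decide (0 < x)) = true := by simpa using hx0
          rw [h2, if_pos rfl, pow_succ]
          ring
  -- the sign
  set η : ℝ := ε * (-1) ^ (l'.length + l.length) * (-1) ^ l'.length with hη
  have hpm : ∀ k : ℕ, ((-1 : ℝ)) ^ k = 1 ∨ ((-1 : ℝ)) ^ k = -1 := fun k => neg_one_pow_eq_or ℝ k
  have hη1 : η = 1 ∨ η = -1 := by
    rw [hη]
    rcases hε with h1 | h1 <;> rcases hpm (l'.length + l.length) with h2 | h2 <;>
      rcases hpm l'.length with h3 | h3 <;> rw [h1, h2, h3] <;> norm_num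
  refine ⟨l', η, hη1, hl'1, hl'2, hl'3, ?_⟩
  -- on the open interval outside of the points
  have hmain : ∀ x, 0 < x → x < 2 * π → x ∉ l' → -B * |sg l' x| ≤ η * sg l' x * P x := by
    intro x hx0 hx1 hxl
    obtain ⟨hxl2, δ, hδ, hδ2, hcount⟩ := hl'5 x hx0 hx1 hxl
    have h1 := hl3 x hx0 hx1 hxl2
    have h2 := sg_sign l' hl'4 x hx0 hx1 hxl
    rw [pow_add, hcount] at h2
    set c : ℝ := (-1) ^ (l.countP (fun y => decide (y < x))) with hc
    have hc1 : c = 1 ∨ c = -1 := hpm _
    -- |sg| = (-1)^len' * δ * c * sg
    have habs : |sg l' x| = (-1) ^ l'.length * (δ * c) * sg l' x := by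
      have h3 : |(-1) ^ l'.length * (δ * c) * sg l' x| = |sg l' x| := by
        rw [abs_mul, abs_mul, abs_mul]
        have e1 : |((-1 : ℝ)) ^ l'.length| = 1 := by rw [abs_pow, abs_neg, abs_one, one_pow]
        have e2 : |δ| = 1 := by rcases hδ with h | h <;> rw [h] <;> norm_num
        have e3 : |c| = 1 := by rcases hc1 with h | h <;> rw [h] <;> norm_num
        rw [e1, e2, e3]; ring
      rw [← h3, abs_of_pos h2]
    have hcc : c * c = 1 := by rcases hc1 with h | h <;> rw [h] <;> norm_num
    have e4 : η * sg l' x * P x = |sg l' x| * (ε * c * P x) := by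
      rw [habs, hη, ← hδ2]
      calc ε * δ * (-1) ^ l'.length * sg l' x * P x
          = (c * c) * (ε * δ * (-1) ^ l'.length * sg l' x * P x) := by rw [hcc, one_mul]
        _ = _ := by ring
    rw [e4]
    have := mul_le_mul_of_nonneg_left h1 (abs_nonneg (sg l' x))
    linarith
  -- by continuity everywhere on the closed interval
  have hsgc : Continuous (sg l') := by
    unfold sg
    apply continuous_list_prod
    intro a _
    fun_prop
  have hclosed : IsClosed {x | -B * |sg l' x| ≤ η * sg l' x * P x} := by
    apply isClosed_le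
    · exact continuous_const.mul hsgc.abs
    · exact (continuous_const.mul hsgc).mul hP
  have hIcc : ∀ x ∈ Set.Icc 0 (2 * π), -B * |sg l' x| ≤ η * sg l' x * P x := by
    have hdense : Set.Icc 0 (2 * π) ⊆ closure (Set.Ioo 0 (2 * π) \ {x | x ∈ l'}) := by
      have hfin : ({x | x ∈ l'} : Set ℝ).Finite := List.finite_toSet l'
      have h1 : Set.Ioo 0 (2 * π) \ {x | x ∈ l'} = Set.Ioo 0 (2 * π) ∩ {x | x ∈ l'}ᶜ := rfl
      have hd : Dense ({x | x ∈ l'}ᶜ : Set ℝ) := by
        exact hfin.countable.dense_compl ℝ
      rw [h1, ← closure_Ioo Real.two_pi_pos.ne]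
      exact closure_minimal (hd.open_subset_closure_inter isOpen_Ioo) isClosed_closure
    intro x hx
    exact (closure_minimal (fun y hy => hmain y hy.1.1 hy.1.2 hy.2) hclosed) (hdense hx)
  intro x
  obtain ⟨y, hy, hxy⟩ : ∃ y ∈ Set.Icc 0 (2 * π), sg l' y = sg l' x ∧ P y = P x := by
    obtain ⟨y, hy1, hy2⟩ := Function.Periodic.exists_mem_Ico₀
      (f := fun z => (sg l' z, P z)) (c := 2 * π) (by
        intro z
        simp only [sg_periodic l' hl'1 z, hper z]) Real.two_pi_pos x
    refine ⟨y, ⟨hy1.1, hy1.2.le⟩, ?_⟩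
    simp only [Prod.mk.injEq] at hy2
    exact ⟨hy2.1.symm, hy2.2.symm⟩
  have := hIcc y hy
  rwa [hxy.1, hxy.2] at this

end

end Pool.Agent.H589.Osc
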