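import Pool.Agent.H589.Few.Kernel
import Pool.Agent.H589.Few.Mean
import Pool.Agent.H589.Osc.Alt

/-!
# `m⁺(p)` for real trigonometric polynomials with few large alternations
-/

set_option autoImplicit false

open Polynomial Finset Real Pool.Agent.H589.Few

namespace Pool.Agent.H589.Osc

noncomputable section

lemma avg_mono_ae (f g : ℂ → ℝ) (hf : CircleIntegrable f 0 1) (hg : CircleIntegrable g 0 1)
    (S : Set ℂ) (hS : S.Countable) (h : ∀ z, ‖z‖ = 1 → z ∉ S → f z ≤ g z) :
    circleAverage f 0 1 ≤ circleAverage g 0 1 := by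
  rw [circleAverage_def, circleAverage_def, smul_eq_mul, smul_eq_mul]
  apply mul_le_mul_of_nonneg_left _ (by positivity)
  apply intervalIntegral.integral_mono_ae Real.two_pi_pos.le hf hg
  have h1 := (hS.preimage_circleMap 0 (one_ne_zero (α := ℝ))).measure_zero MeasureTheory.volume
  filter_upwards [MeasureTheory.measure_eq_zero_iff_ae_notMem.mp h1] with θ hθ
  exact h _ (by simp) hθ

lemma conj_of_norm_one {z : ℂ} (hz : ‖z‖ = 1) : z * (starRingEnd ℂ) z = 1 := by
  rw [Complex.mul_conj, Complex.normSq_eq_norm_sq, hz]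
  norm_num

lemma star_eval (A : ℂ[X]) (D : ℕ) (hA : A.natDegree ≤ D) (z : ℂ) (hz : ‖z‖ = 1) :
    (starRingEnd ℂ) (A.eval z) = ((starRingEnd ℂ) z) ^ D *
      ((A.map (starRingEnd ℂ)).reflect D).eval z := by
  have hz0 : z ≠ 0 := by
    intro h; rw [h, norm_zero] at hz; exact zero_ne_one hz
  have hz' : (starRingEnd ℂ) z ≠ 0 := by simpa using hz0
  have : Invertible ((starRingEnd ℂ) z) := invertibleOfNonzero hz'
  have h3 := eval₂_reflect_mul_pow (RingHom.id ℂ) ((starRingEnd ℂ) z) D
    (A.map (starRingEnd ℂ)) (natDegree_map_le.trans hA)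
  have hinv : ((starRingEnd ℂ) z)⁻¹ = z :=
    inv_eq_of_mul_eq_one_right (by rw [mul_comm]; exact conj_of_norm_one hz)
  simp only [invOf_eq_inv, eval₂_id, hinv] at h3
  rw [Polynomial.eval_map, Polynomial.eval₂_at_apply] at h3
  rw [← h3]
  ring

/-- From a bound of the weighted mean of `|p|` to the mean of `log⁺ |p|`. -/
lemma finish (p q A : ℂ[X]) (hq : q.Monic) (hA0 : A.eval 0 = 1) (M : ℝ)
    (hM : ∀ z : ℂ, ‖z‖ = 1 → ‖q.eval z‖ * ‖A.eval z‖ ^ 2 ≤ M) (T : ℝ)
    (hmain : circleAverage (fun z : ℂ => ‖p.eval z‖ * (‖q.eval z‖ * ‖A.eval z‖ ^ 2)) 0 1 ≤ T) :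
    circleAverage (fun z => log⁺ ‖p.eval z‖) 0 1 ≤ Real.log (1 + T) + Real.log (1 + M) := by
  have hM0 : 0 ≤ M := le_trans (by positivity) (hM 1 (by simp))
  set h : ℂ → ℝ := fun z => ‖q.eval z‖ * ‖A.eval z‖ ^ 2 with hh
  have hhc : Continuous h := by
    rw [hh]
    fun_prop
  have hA00 : A ≠ 0 := by
    intro h0; rw [h0, eval_zero] at hA0; exact zero_ne_one hA0
  have hlogA : 0 ≤ A.logMahlerMeasure := by
    rw [logMahlerMeasure_eq_log_MahlerMeasure]
    apply Real.log_nonneg
    have := norm_coeff_le_choose_mul_mahlerMeasure 0 A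
    rw [Nat.choose_zero_right, Nat.cast_one, one_mul, coeff_zero_eq_eval_zero, hA0, norm_one] at this
    exact this
  have hlogq : 0 ≤ q.logMahlerMeasure := by
    rw [logMahlerMeasure_eq_log_MahlerMeasure]
    apply Real.log_nonneg
    have := leadingCoeff_le_mahlerMeasure q
    rw [hq.leadingCoeff, norm_one] at this
    exact this
  have hiq : CircleIntegrable (fun z : ℂ => Real.log ‖q.eval z‖) 0 1 := by
    rw [circleIntegrable_def]
    exact intervalIntegrable_mahlerMeasure _
  have hiA : CircleIntegrable (fun z : ℂ => Real.log ‖A.eval z‖) 0 1 := by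
    rw [circleIntegrable_def]
    exact intervalIntegrable_mahlerMeasure _
  -- pointwise inequality outside of the zeros
  set Z : Set ℂ := ↑((q * A).roots.toFinset) with hZ
  have hqA0 : q * A ≠ 0 := mul_ne_zero hq.ne_zero hA00
  have hpt : ∀ z : ℂ, ‖z‖ = 1 → z ∉ Z →
      log⁺ ‖p.eval z‖ ≤ (log⁺ (‖p.eval z‖ * h z) + log⁺ (h z)) -
        (Real.log ‖q.eval z‖ + 2 * Real.log ‖A.eval z‖) := by
    intro z _ hzZ
    have hz1 : (q * A).eval z ≠ 0 := by
      intro h0
      apply hzZ
      rw [hZ]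
      simp only [Multiset.mem_toFinset, Finset.mem_coe]
      rw [mem_roots hqA0]
      exact h0
    rw [eval_mul] at hz1
    have hq1 : ‖q.eval z‖ ≠ 0 := norm_ne_zero_iff.mpr (left_ne_zero_of_mul hz1)
    have hA1 : ‖A.eval z‖ ≠ 0 := norm_ne_zero_iff.mpr (right_ne_zero_of_mul hz1)
    have hh1 : h z ≠ 0 := by
      rw [hh]
      positivity
    have h1 : log⁺ ‖p.eval z‖ ≤ log⁺ (‖p.eval z‖ * h z) + log⁺ ((h z)⁻¹) := by
      have := posLog_mul (x := ‖p.eval z‖ * h z) (y := (h z)⁻¹)
      rwa [mul_assoc, mul_inv_cancel₀ hh1, mul_one] at this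
    have h2 : log⁺ (h z) - log⁺ ((h z)⁻¹) = Real.log (h z) := posLog_sub_posLog_inv
    have h3 : Real.log (h z) = Real.log ‖q.eval z‖ + 2 * Real.log ‖A.eval z‖ := by
      rw [hh]
      simp only
      rw [Real.log_mul hq1 (pow_ne_zero _ hA1), Real.log_pow]
      push_cast
      ring
    linarith
  have hc1 : Continuous (fun z : ℂ => log⁺ (‖p.eval z‖ * h z)) := by
    apply continuous_posLog.comp
    fun_prop
  have hc2 : Continuous (fun z : ℂ => log⁺ (h z)) := continuous_posLog.comp hhc
  have hc0 : Continuous (fun z : ℂ => log⁺ ‖p.eval z‖) := by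
    apply continuous_posLog.comp
    fun_prop
  have hi2 : CircleIntegrable (fun z : ℂ => Real.log ‖q.eval z‖ + 2 * Real.log ‖A.eval z‖) 0 1 := by
    have := hiq.add (hiA.const_fun_smul (a := (2:ℝ)))
    simpa [Pi.add_def] using this
  have hi1 : CircleIntegrable (fun z : ℂ => log⁺ (‖p.eval z‖ * h z) + log⁺ (h z)) 0 1 :=
    circ_cont _ (hc1.add hc2)
  have hmono := avg_mono_ae _ _ (circ_cont _ hc0) (hi1.sub hi2) Z
    (Finset.countable_toSet _) hpt
  refine hmono.trans ?_
  have hs1 : circleAverage ((fun z : ℂ => log⁺ (‖p.eval z‖ * h z) + log⁺ (h z)) -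
      (fun z : ℂ => Real.log ‖q.eval z‖ + 2 * Real.log ‖A.eval z‖)) 0 1 =
      (circleAverage (fun z : ℂ => log⁺ (‖p.eval z‖ * h z)) 0 1 +
        circleAverage (fun z : ℂ => log⁺ (h z)) 0 1) -
      (q.logMahlerMeasure + 2 * A.logMahlerMeasure) := by
    rw [circleAverage_sub hi1 hi2, circleAverage_fun_add (circ_cont _ hc1) (circ_cont _ hc2)]
    congr 1
    rw [circleAverage_fun_add hiq (by simpa using hiA.const_fun_smul (a := (2:ℝ)))]
    congr 1
    have := circleAverage_fun_smul (a := (2:ℝ)) (f := fun z : ℂ => Real.log ‖A.eval z‖)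
      (c := 0) (R := 1)
    simp only [smul_eq_mul] at this
    rw [this]
    rfl
  rw [hs1]
  have hj1 := avg_posLog_le (fun z => ‖p.eval z‖ * h z) (by fun_prop)
    (fun z => by rw [hh]; positivity) _ hmain
  have hj2 : circleAverage (fun z : ℂ => log⁺ (h z)) 0 1 ≤ Real.log (1 + M) := by
    have h1 := circleAverage_mono_on_of_le_circle (c := 0) (R := 1) (circ_cont _ hc2)
      (a := Real.log (1 + M)) (by
        intro z hz
        simp only [abs_one, mem_sphere_iff_norm, sub_zero] at hz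
        rw [posLog_eq_log_max_one (by rw [hh]; positivity)]
        apply Real.log_le_log (by positivity)
        apply max_le
        · linarith
        · have := hM z hz
          rw [hh]
          simp only
          linarith)
    exact h1
  linarith

/-- The point with angle `x`. -/
def ex (x : ℝ) : ℂ := Complex.exp (Complex.I * x)

lemma ex_norm (x : ℝ) : ‖ex x‖ = 1 := by
  unfold ex
  rw [mul_comm]
  exact Complex.norm_exp_ofReal_mul_I x

/-- The polynomial vanishing at the points of the list. -/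
def qL (l : List ℝ) : ℂ[X] := (l.map fun a => (X - C (ex a))).prod

/-- The multiplier. -/
def AL (ρ : ℝ) (K : ℕ) (l : List ℝ) : ℂ[X] :=
  (l.map fun a => (AK ρ K).comp (C ((starRingEnd ℂ) (ex a)) * X)).prod

lemma qL_cons (a : ℝ) (l : List ℝ) : qL (a :: l) = (X - C (ex a)) * qL l := by simp [qL]

lemma AL_cons (ρ : ℝ) (K : ℕ) (a : ℝ) (l : List ℝ) :
    AL ρ K (a :: l) = (AK ρ K).comp (C ((starRingEnd ℂ) (ex a)) * X) * AL ρ K l := by simp [AL]

lemma qL_monic (l : List ℝ) : (qL l).Monic := by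
  induction l with
  | nil => simp [qL]
  | cons a l ih => rw [qL_cons]; exact (monic_X_sub_C _).mul ih

lemma qL_natDegree (l : List ℝ) : (qL l).natDegree ≤ l.length := by
  induction l with
  | nil => simp [qL]
  | cons a l ih =>
    rw [qL_cons, List.length_cons]
    refine natDegree_mul_le.trans ?_
    rw [natDegree_X_sub_C]
    omega

lemma AL_natDegree (ρ : ℝ) (K : ℕ) (l : List ℝ) : (AL ρ K l).natDegree ≤ l.length * K := by
  induction l with
  | nil => simp [AL]
  | cons a l ih =>
    rw [AL_cons, List.length_cons]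
    refine natDegree_mul_le.trans ?_
    have h1 : ((AK ρ K).comp (C ((starRingEnd ℂ) (ex a)) * X)).natDegree ≤ K := by
      refine natDegree_comp_le.trans ?_
      calc (AK ρ K).natDegree * (C ((starRingEnd ℂ) (ex a)) * X).natDegree
          ≤ K * 1 := Nat.mul_le_mul (AK_natDegree_le ρ K)
            (natDegree_C_mul_le _ _ |>.trans natDegree_X_le)
        _ = K := mul_one K
    calc _ ≤ K + l.length * K := add_le_add h1 ih
      _ = (l.length + 1) * K := by ring

lemma AL_zero (ρ : ℝ) (K : ℕ) (hK : 0 < K) (l : List ℝ) : (AL ρ K l).eval 0 = 1 := by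
  induction l with
  | nil => simp [AL]
  | cons a l ih =>
    rw [AL_cons, eval_mul, ih, mul_one, eval_comp, eval_mul, eval_C, eval_X, mul_zero]
    exact AK_eval_zero ρ K hK

lemma AL_bound (ρ : ℝ) (K : ℕ) (h0 : 0 ≤ ρ) (h1 : ρ < 1) (l : List ℝ)
    (z : ℂ) (hz : ‖z‖ = 1) :
    ‖(qL l).eval z‖ * ‖(AL ρ K l).eval z‖ ^ 2 ≤
      (2 / (1 + ρ) * (1 + 3 * (ρ ^ K / (1 - ρ)))) ^ l.length := by
  have h1ρ : 0 < 1 - ρ := by linarith
  induction l with
  | nil => simp [qL, AL]
  | cons a l ih =>
    have hw1 := ex_norm a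
    have hw2 : ‖(starRingEnd ℂ) (ex a) * z‖ = 1 := by
      rw [norm_mul, Complex.norm_conj, hw1, hz, one_mul]
    have h := AK_bound ρ K h0 h1 ((starRingEnd ℂ) (ex a) * z) hw2
    have h2 : ‖z - ex a‖ = ‖1 - (starRingEnd ℂ) (ex a) * z‖ := by
      have : z - ex a = -ex a * (1 - (starRingEnd ℂ) (ex a) * z) := by
        have hc := conj_of_norm_one hw1
        linear_combination (-z) * hc
      rw [this, norm_mul, norm_neg, hw1, one_mul]
    rw [qL_cons, AL_cons, eval_mul, eval_mul, norm_mul, norm_mul, eval_sub, eval_X, eval_C,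
      eval_comp, eval_mul, eval_C, eval_X, h2, List.length_cons, pow_succ]
    calc ‖1 - (starRingEnd ℂ) (ex a) * z‖ * ‖eval z (qL l)‖ *
          (‖eval ((starRingEnd ℂ) (ex a) * z) (AK ρ K)‖ * ‖eval z (AL ρ K l)‖) ^ 2
        = (‖eval z (qL l)‖ * ‖eval z (AL ρ K l)‖ ^ 2) *
          (‖1 - (starRingEnd ℂ) (ex a) * z‖ *
            ‖eval ((starRingEnd ℂ) (ex a) * z) (AK ρ K)‖ ^ 2) := by ring
      _ ≤ _ := by
        apply mul_le_mul ih h (by positivity) (by positivity)

/-- the constant -/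
def kap (l : List ℝ) : ℂ := (l.map fun a => (2 * Complex.I * ex (a / 2))).prod

lemma kap_ne_zero (l : List ℝ) : kap l ≠ 0 := by
  induction l with
  | nil => simp [kap]
  | cons a l ih =>
    have h : kap (a :: l) = (2 * Complex.I * ex (a / 2)) * kap l := by simp [kap]
    rw [h]
    apply mul_ne_zero _ ih
    apply mul_ne_zero
    · apply mul_ne_zero (by norm_num) Complex.I_ne_zero
    · have := ex_norm (a / 2)
      intro h0; rw [h0, norm_zero] at this; exact zero_ne_one this

lemma ex_sub (x a : ℝ) : ex x - ex a =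
    (2 * Complex.I * ex (a / 2)) * (Real.sin ((x - a) / 2) : ℂ) * ex (x / 2) := by
  unfold ex
  rw [Complex.ofReal_sin]
  have h1 := Complex.two_sin (((x - a) / 2 : ℝ) : ℂ)
  have h2 : Complex.sin (((x - a) / 2 : ℝ) : ℂ) =
      (Complex.exp (-(((x - a) / 2 : ℝ) : ℂ) * Complex.I) -
        Complex.exp ((((x - a) / 2 : ℝ) : ℂ) * Complex.I)) * Complex.I / 2 := by
    rw [← h1]; ring
  rw [h2]
  have e1 : Complex.exp (Complex.I * x) =
      Complex.exp (Complex.I * ((a / 2 : ℝ) : ℂ)) *
        Complex.exp ((((x - a) / 2 : ℝ) : ℂ) * Complex.I) *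
        Complex.exp (Complex.I * ((x / 2 : ℝ) : ℂ)) := by
    rw [← Complex.exp_add, ← Complex.exp_add]
    congr 1
    push_cast
    ring
  have e2 : Complex.exp (Complex.I * a) =
      Complex.exp (Complex.I * ((a / 2 : ℝ) : ℂ)) *
        Complex.exp (-(((x - a) / 2 : ℝ) : ℂ) * Complex.I) *
        Complex.exp (Complex.I * ((x / 2 : ℝ) : ℂ)) := by
    rw [← Complex.exp_add, ← Complex.exp_add]
    congr 1
    push_cast
    ring
  rw [e1, e2]
  have hI : Complex.I * Complex.I = -1 := Complex.I_mul_I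
  linear_combination (Complex.exp (Complex.I * ((a / 2 : ℝ) : ℂ)) *
    (Complex.exp (-(((x - a) / 2 : ℝ) : ℂ) * Complex.I) -
        Complex.exp ((((x - a) / 2 : ℝ) : ℂ) * Complex.I)) *
    Complex.exp (Complex.I * ((x / 2 : ℝ) : ℂ))) * (-hI)

lemma qL_eval (l : List ℝ) (x : ℝ) :
    (qL l).eval (ex x) = kap l * (sg l x : ℂ) * ex (x / 2) ^ l.length := by
  induction l with
  | nil => simp [qL, kap, sg]
  | cons a l ih =>
    have h : kap (a :: l) = (2 * Complex.I * ex (a / 2)) * kap l := by simp [kap]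
    have hs : sg (a :: l) x = Real.sin ((x - a) / 2) * sg l x := by simp [sg]
    rw [qL_cons, eval_mul, ih, eval_sub, eval_X, eval_C, ex_sub, h, hs, List.length_cons, pow_succ]
    push_cast
    ring

lemma ex_half (x : ℝ) : ex (x / 2) ^ 2 = ex x := by
  unfold ex
  rw [← Complex.exp_nat_mul]
  congr 1
  push_cast
  ring

lemma core (p : ℂ[X]) (d : ℕ) (P : ℝ → ℝ) (hP : ∀ x : ℝ, p.eval (ex x) = ex x ^ d * (P x : ℂ))
    (l : List ℝ) (e : ℕ) (hl : l.length = 2 * e) (ε : ℝ) (hε : ε = 1 ∨ ε = -1)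
    (B : ℝ) (hB0 : 0 ≤ B) (hsign : ∀ x, -B * |sg l x| ≤ ε * sg l x * P x)
    (A : ℂ[X]) (D : ℕ) (hA : A.natDegree ≤ D) (hA0 : A.eval 0 = 1) (M : ℝ)
    (hM : ∀ z : ℂ, ‖z‖ = 1 → ‖(qL l).eval z‖ * ‖A.eval z‖ ^ 2 ≤ M)
    (hB : ∀ k : ℕ, d ≤ k + e + D → k ≤ d + e + D → ‖p.coeff k‖ ≤ B) :
    circleAverage (fun z => log⁺ ‖p.eval z‖) 0 1 ≤
      Real.log (1 + ((2 * e + 2 * D + 1) * (B * M) + 2 * (B * M))) + Real.log (1 + M) := by
  classical
  set q := qL l with hq
  have hM0 : 0 ≤ M := le_trans (by positivity) (hM 1 (by simp))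
  apply finish p q A (qL_monic l) hA0 M hM
  set As : ℂ[X] := (A.map (starRingEnd ℂ)).reflect D with hAs
  have hAsd : As.natDegree ≤ D := by
    refine natDegree_reflect_le.trans ?_
    exact max_le le_rfl (natDegree_map_le.trans hA)
  set W : ℂ[X] := q * A * As with hW
  have hWd : W.natDegree ≤ 2 * e + 2 * D := by
    refine natDegree_mul_le.trans ?_
    have h1 : (q * A).natDegree ≤ l.length + D :=
      natDegree_mul_le.trans (add_le_add (qL_natDegree l) hA)
    omega
  have hWn : ∀ z : ℂ, ‖z‖ = 1 → ‖W.eval z‖ = ‖q.eval z‖ * ‖A.eval z‖ ^ 2 := by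
    intro z hz
    have h1 := congrArg norm (star_eval A D hA z hz)
    rw [norm_mul, norm_pow, Complex.norm_conj, Complex.norm_conj, hz, one_pow, one_mul] at h1
    rw [← hAs] at h1
    rw [hW, eval_mul, eval_mul, norm_mul, norm_mul, ← h1]
    ring
  set κ := kap l with hκ
  have hκ0 : κ ≠ 0 := kap_ne_zero l
  have hκn : (‖κ‖ : ℂ) ≠ 0 := by
    rw [Complex.ofReal_ne_zero]; exact norm_ne_zero_iff.mpr hκ0
  set u : ℂ := (‖κ‖ : ℂ) / κ with hu
  have hun : ‖u‖ = 1 := by
    rw [hu, norm_div, Complex.norm_real, norm_norm]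
    exact div_self (norm_ne_zero_iff.mpr hκ0)
  set G : ℂ → ℂ := fun z => u • (((starRingEnd ℂ) z) ^ (d + e + D) * (p * W).eval z) with hG
  have hGc : Continuous G := by
    rw [hG]
    fun_prop
  -- G is real on the circle
  have hGval : ∀ x : ℝ, G (ex x) = ((P x * (‖κ‖ * sg l x * ‖A.eval (ex x)‖ ^ 2) : ℝ) : ℂ) := by
    intro x
    have hz := ex_norm x
    rw [hG]
    simp only [smul_eq_mul]
    have h1 : (p * W).eval (ex x) = p.eval (ex x) * q.eval (ex x) * (A.eval (ex x) *
        As.eval (ex x)) := by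
      rw [hW]
      simp only [eval_mul]
      ring
    rw [h1, pow_add, pow_add]
    have h2 := star_eval A D hA (ex x) hz
    rw [← hAs] at h2
    have h3 : A.eval (ex x) * (starRingEnd ℂ) (A.eval (ex x)) = ((‖A.eval (ex x)‖ ^ 2 : ℝ) : ℂ) := by
      rw [Complex.mul_conj, Complex.normSq_eq_norm_sq]
    have h4 : q.eval (ex x) = κ * (sg l x : ℂ) * ex x ^ e := by
      rw [hq, qL_eval, hl, pow_mul, ex_half]
    have h5 : ((starRingEnd ℂ) (ex x)) ^ d * ex x ^ d = 1 := by
      rw [← mul_pow, mul_comm, conj_of_norm_one hz, one_pow]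
    have h6 : ((starRingEnd ℂ) (ex x)) ^ e * ex x ^ e = 1 := by
      rw [← mul_pow, mul_comm, conj_of_norm_one hz, one_pow]
    have huκ : u * κ = (‖κ‖ : ℂ) := by
      rw [hu]; field_simp
    calc u * ((starRingEnd ℂ) (ex x) ^ d * (starRingEnd ℂ) (ex x) ^ e *
          (starRingEnd ℂ) (ex x) ^ D *
          (p.eval (ex x) * q.eval (ex x) * (A.eval (ex x) * As.eval (ex x))))
        = u * ((starRingEnd ℂ) (ex x) ^ d * (starRingEnd ℂ) (ex x) ^ e *
          (p.eval (ex x) * q.eval (ex x) * (A.eval (ex x) *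
            ((starRingEnd ℂ) (ex x) ^ D * As.eval (ex x))))) := by ring
      _ = u * ((starRingEnd ℂ) (ex x) ^ d * (starRingEnd ℂ) (ex x) ^ e *
          ((ex x ^ d * (P x : ℂ)) * (κ * (sg l x : ℂ) * ex x ^ e) *
            ((‖A.eval (ex x)‖ ^ 2 : ℝ) : ℂ))) := by
          rw [← h2, h3, hP, h4]
      _ = (u * κ) * (((starRingEnd ℂ) (ex x)) ^ d * ex x ^ d) *
          (((starRingEnd ℂ) (ex x)) ^ e * ex x ^ e) * (P x : ℂ) * (sg l x : ℂ) *
            ((‖A.eval (ex x)‖ ^ 2 : ℝ) : ℂ) := by ring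
      _ = _ := by
          rw [h5, h6, huκ]
          push_cast
          ring
  have hqn : ∀ x : ℝ, ‖q.eval (ex x)‖ = ‖κ‖ * |sg l x| := by
    intro x
    have h4 : q.eval (ex x) = κ * (sg l x : ℂ) * ex x ^ e := by
      rw [hq, qL_eval, hl, pow_mul, ex_half]
    rw [h4, norm_mul, norm_mul, norm_pow, ex_norm, one_pow, mul_one, Complex.norm_real,
      Real.norm_eq_abs]
  -- pointwise inequality
  have hpt : ∀ z ∈ Metric.sphere (0:ℂ) |1|, ‖p.eval z‖ * (‖q.eval z‖ * ‖A.eval z‖ ^ 2) ≤
      ε * (G z).re + 2 * B * (‖q.eval z‖ * ‖A.eval z‖ ^ 2) := by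
    intro z hz
    simp only [abs_one, mem_sphere_iff_norm, sub_zero] at hz
    obtain ⟨x, hx⟩ : ∃ x : ℝ, z = ex x := by
      refine ⟨Complex.arg z, ?_⟩
      unfold ex
      have := Complex.norm_mul_exp_arg_mul_I z
      rw [hz, Complex.ofReal_one, one_mul] at this
      rw [mul_comm, this]
    rw [hx, hGval, Complex.ofReal_re, hqn, hP, norm_mul, norm_pow, ex_norm, one_pow, one_mul,
      Complex.norm_real, Real.norm_eq_abs]
    have hs := hsign x
    set a := ‖A.eval (ex x)‖ ^ 2 with ha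
    have ha0 : 0 ≤ a := by positivity
    have hk0 : 0 ≤ ‖κ‖ := norm_nonneg _
    -- |P| |s| ≤ ε s P + 2 B |s|
    have h1 : |P x| * |sg l x| ≤ ε * sg l x * P x + 2 * B * |sg l x| := by
      rw [← abs_mul]
      have h2 : |P x * sg l x| = |ε * sg l x * P x| := by
        have : |ε| = 1 := by rcases hε with h | h <;> rw [h] <;> norm_num
        rw [abs_mul, abs_mul, abs_mul, this]
        ring
      rw [h2]
      have h3 := abs_nonneg (sg l x)
      rcases abs_cases (ε * sg l x * P x) with h4 | h4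
      · rw [h4.1]
        nlinarith
      · rw [h4.1]
        nlinarith
    calc |P x| * (‖κ‖ * |sg l x| * a) = (|P x| * |sg l x|) * (‖κ‖ * a) := by ring
      _ ≤ (ε * sg l x * P x + 2 * B * |sg l x|) * (‖κ‖ * a) := by
          apply mul_le_mul_of_nonneg_right h1 (by positivity)
      _ = _ := by ring
  have hc1 : Continuous (fun z : ℂ => ‖p.eval z‖ * (‖q.eval z‖ * ‖A.eval z‖ ^ 2)) := by fun_prop
  have hc2 : Continuous (fun z : ℂ => ε * (G z).re) :=
    continuous_const.mul (Complex.continuous_re.comp hGc)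
  have hc3 : Continuous (fun z : ℂ => 2 * B * (‖q.eval z‖ * ‖A.eval z‖ ^ 2)) := by fun_prop
  have hm1 := circleAverage_mono (c := 0) (R := 1) (circ_cont _ hc1)
    (circ_cont _ (hc2.add hc3)) hpt
  refine hm1.trans ?_
  have hs1 : circleAverage ((fun z : ℂ => ε * (G z).re) +
      fun z : ℂ => 2 * B * (‖q.eval z‖ * ‖A.eval z‖ ^ 2)) 0 1 =
      circleAverage (fun z : ℂ => ε * (G z).re) 0 1 +
        circleAverage (fun z : ℂ => 2 * B * (‖q.eval z‖ * ‖A.eval z‖ ^ 2)) 0 1 :=
    circleAverage_add (circ_cont _ hc2) (circ_cont _ hc3)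
  rw [hs1]
  have hpart2 : circleAverage (fun z : ℂ => 2 * B * (‖q.eval z‖ * ‖A.eval z‖ ^ 2)) 0 1 ≤
      2 * (B * M) := by
    apply circleAverage_mono_on_of_le_circle (circ_cont _ hc3)
    intro z hz
    simp only [abs_one, mem_sphere_iff_norm, sub_zero] at hz
    have := mul_le_mul_of_nonneg_left (hM z hz) (show 0 ≤ 2 * B by positivity)
    linarith
  have hpart1 : circleAverage (fun z : ℂ => ε * (G z).re) 0 1 ≤
      (2 * e + 2 * D + 1) * (B * M) := by
    have h1 : circleAverage (fun z : ℂ => ε * (G z).re) 0 1 =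
        ε * (u * (p * W).coeff (d + e + D)).re := by
      have h2 := circleAverage_fun_smul (a := ε) (f := fun z : ℂ => (G z).re) (c := 0) (R := 1)
      simp only [smul_eq_mul] at h2
      rw [h2]
      congr 1
      have h3 := Complex.reCLM.circleAverage_comp_comm (c := 0) (R := 1) (f := G)
        (circ_contC _ hGc)
      have h4 : circleAverage G 0 1 = u * (p * W).coeff (d + e + D) := by
        rw [hG, circleAverage_fun_smul, avg_coeff, smul_eq_mul]
      rw [h4] at h3
      simpa [Function.comp_def] using h3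
    rw [h1]
    have h5 : ε * (u * (p * W).coeff (d + e + D)).re ≤ ‖(p * W).coeff (d + e + D)‖ := by
      have h6 : |ε * (u * (p * W).coeff (d + e + D)).re| ≤ ‖(p * W).coeff (d + e + D)‖ := by
        rw [abs_mul]
        have : |ε| = 1 := by rcases hε with h | h <;> rw [h] <;> norm_num
        rw [this, one_mul]
        refine (Complex.abs_re_le_norm _).trans ?_
        rw [norm_mul, hun, one_mul]
      exact (le_abs_self _).trans h6
    refine h5.trans ?_
    rw [coeff_mul]
    calc ‖∑ x ∈ antidiagonal (d + e + D), p.coeff x.1 * W.coeff x.2‖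
        ≤ ∑ x ∈ antidiagonal (d + e + D), ‖p.coeff x.1‖ * ‖W.coeff x.2‖ := by
          refine (norm_sum_le _ _).trans (Finset.sum_le_sum fun x _ => ?_)
          rw [norm_mul]
      _ ≤ ∑ x ∈ antidiagonal (d + e + D),
          (if x.2 ∈ range (2 * e + 2 * D + 1) then B * M else 0) := by
          refine Finset.sum_le_sum fun x hx => ?_
          rw [HasAntidiagonal.mem_antidiagonal] at hx
          by_cases hx2 : x.2 ∈ range (2 * e + 2 * D + 1)
          · rw [if_pos hx2]
            rw [Finset.mem_range] at hx2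
            apply mul_le_mul _ _ (norm_nonneg _) hB0
            · apply hB <;> omega
            · apply coeff_norm_le W M
              intro z hz
              rw [hWn z hz]
              exact hM z hz
          · rw [if_neg hx2]
            rw [Finset.mem_range, not_lt] at hx2
            rw [coeff_eq_zero_of_natDegree_lt (p := W) (by omega), norm_zero, mul_zero]
      _ ≤ ∑ j ∈ range (2 * e + 2 * D + 1), B * M := by
          rw [← Finset.sum_filter]
          have hinj : Set.InjOn (fun x : ℕ × ℕ => x.2)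
              ↑((antidiagonal (d + e + D)).filter (fun x => x.2 ∈ range (2 * e + 2 * D + 1))) := by
            intro x hx y hy hxy
            simp only [Finset.coe_filter, HasAntidiagonal.mem_antidiagonal,
              Set.mem_ofPred_eq] at hx hy
            ext
            · have := hx.1; have := hy.1; simp only at hxy; omega
            · exact hxy
          have hsum := Finset.sum_image (s := (antidiagonal (d + e + D)).filter
            (fun x => x.2 ∈ range (2 * e + 2 * D + 1))) (g := fun x : ℕ × ℕ => x.2)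
            (f := fun _ : ℕ => B * M) hinj
          rw [← hsum]
          apply Finset.sum_le_sum_of_subset_of_nonneg
          · intro j hj
            rw [Finset.mem_image] at hj
            obtain ⟨x, hx, rfl⟩ := hj
            exact (Finset.mem_filter.mp hx).2
          · intro _ _ _
            positivity
      _ = (2 * e + 2 * D + 1) * (B * M) := by
          rw [Finset.sum_const, Finset.card_range, nsmul_eq_mul]
          push_cast
          ring
  linarith

end

end Pool.Agent.H589.Osc
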