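import Pool.Agent.H589.Osc.Core

/-!
# Choice of the multiplier, and the bound for `m⁺(p)`
-/

set_option autoImplicit false

open Polynomial Finset Real Pool.Agent.H589.Few

namespace Pool.Agent.H589.Osc

noncomputable section

lemma exists_A (l₀ : List ℝ) :
    ∃ (A : ℂ[X]) (D : ℕ), A.natDegree ≤ D ∧ A.eval 0 = 1 ∧
      (∀ z : ℂ, ‖z‖ = 1 → ‖(qL l₀).eval z‖ * ‖A.eval z‖ ^ 2 ≤ Real.exp 2) ∧
      (l₀.length + 2 * D : ℝ) ≤ 24 * (l₀.length : ℝ) ^ 2 * Real.log (1 + l₀.length) := by
  rcases Nat.eq_zero_or_pos l₀.length with ht | ht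
  · refine ⟨1, 0, by simp, by simp, ?_, ?_⟩
    · intro z _
      rw [List.length_eq_zero_iff] at ht
      rw [ht]
      simp [qL]
    · rw [ht]
      simp
  · set t : ℝ := (l₀.length : ℝ) with htdef
    have ht1 : (1:ℝ) ≤ t := by rw [htdef]; exact_mod_cast ht
    set L : ℝ := Real.log (4 * (t + 1) ^ 2) with hL
    have hL0 : 0 < L := by
      apply Real.log_pos
      nlinarith
    set m : ℕ := ⌈L⌉₊ with hm
    have hm0 : 0 < m := Nat.ceil_pos.mpr hL0
    have hm1 : L ≤ m := Nat.le_ceil L
    have hm2 : (m : ℝ) < L + 1 := Nat.ceil_lt_add_one hL0.le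
    set K : ℕ := (l₀.length + 1) * m with hK
    have hK0 : 0 < K := by positivity
    set ρ : ℝ := t / (t + 1) with hρ
    have hρ0 : 0 ≤ ρ := by positivity
    have hρ1 : ρ < 1 := by
      rw [hρ, div_lt_one (by linarith)]
      linarith
    have h1ρ : 1 - ρ = 1 / (t + 1) := by
      rw [hρ]; field_simp; ring
    refine ⟨AL ρ K l₀, l₀.length * K, AL_natDegree ρ K l₀, AL_zero ρ K hK0 l₀, ?_, ?_⟩
    · intro z hz
      refine (AL_bound ρ K hρ0 hρ1 l₀ z hz).trans ?_
      -- rho ^ K
      have hρK : ρ ^ K ≤ 1 / (4 * (t + 1) ^ 2) := by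
        have h2 : ρ ≤ Real.exp (-(1 / (t + 1))) := by
          have := Real.add_one_le_exp (-(1 / (t + 1)))
          rw [← h1ρ] at this ⊢
          linarith
        calc ρ ^ K ≤ (Real.exp (-(1 / (t + 1)))) ^ K := by gcongr
          _ = Real.exp (-(m : ℝ)) := by
              rw [← Real.exp_nat_mul]
              congr 1
              rw [hK]
              push_cast
              rw [← htdef]
              field_simp
          _ ≤ Real.exp (-L) := by
              apply Real.exp_le_exp.mpr
              linarith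
          _ = 1 / (4 * (t + 1) ^ 2) := by
              rw [Real.exp_neg, hL, Real.exp_log (by positivity), one_div]
      have h3 : 3 * (ρ ^ K / (1 - ρ)) ≤ 1 / (t + 1) := by
        rw [h1ρ]
        have : ρ ^ K / (1 / (t + 1)) = ρ ^ K * (t + 1) := by field_simp
        rw [this]
        calc 3 * (ρ ^ K * (t + 1)) ≤ 3 * (1 / (4 * (t + 1) ^ 2) * (t + 1)) := by gcongr
          _ ≤ 1 / (t + 1) := by
              have : 3 * (1 / (4 * (t + 1) ^ 2) * (t + 1)) = (3 / 4) * (1 / (t + 1)) := by
                field_simp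
              rw [this]
              have : 0 ≤ 1 / (t + 1) := by positivity
              linarith
      have h4 : 2 / (1 + ρ) ≤ 1 + 1 / (t + 1) := by
        rw [hρ, div_le_iff₀ (by positivity)]
        have : (1 + 1 / (t + 1)) * (1 + t / (t + 1)) = 2 + t / (t + 1) ^ 2 := by
          field_simp
          ring
        rw [this]
        have : 0 ≤ t / (t + 1) ^ 2 := by positivity
        linarith
      have h5 : 1 + 1 / (t + 1) ≤ Real.exp (1 / (t + 1)) := by
        have := Real.add_one_le_exp (1 / (t + 1))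
        linarith
      calc (2 / (1 + ρ) * (1 + 3 * (ρ ^ K / (1 - ρ)))) ^ l₀.length
          ≤ (Real.exp (1 / (t + 1)) * Real.exp (1 / (t + 1))) ^ l₀.length := by
            have h6 : 0 ≤ 3 * (ρ ^ K / (1 - ρ)) := by
              rw [h1ρ]
              positivity
            apply pow_le_pow_left₀ (by positivity)
            apply mul_le_mul (h4.trans h5) (le_trans (by linarith) h5) (by positivity)
              (Real.exp_pos _).le
        _ = Real.exp (t * (1 / (t + 1) + 1 / (t + 1))) := by
            rw [← Real.exp_add, ← Real.exp_nat_mul]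
        _ ≤ Real.exp 2 := by
            apply Real.exp_le_exp.mpr
            have : t * (1 / (t + 1) + 1 / (t + 1)) = 2 * (t / (t + 1)) := by ring
            rw [this]
            rw [← hρ]
            linarith
    · push_cast
      rw [← htdef, hK]
      push_cast
      rw [← htdef]
      have hlog2 : (0.6931471803 : ℝ) < Real.log 2 := Real.log_two_gt_d9
      have hlog2' : Real.log 2 < (0.6931471808 : ℝ) := Real.log_two_lt_d9
      have hlt : Real.log 2 ≤ Real.log (1 + t) := Real.log_le_log (by norm_num) (by linarith)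
      have hLe : L = 2 * Real.log 2 + 2 * Real.log (1 + t) := by
        rw [hL, Real.log_mul (by norm_num) (by positivity), Real.log_pow,
          show (4:ℝ) = 2 ^ 2 by norm_num, Real.log_pow, add_comm t 1]
        push_cast
        ring
      set l := Real.log (1 + t) with hl
      have hm3 : (m : ℝ) ≤ 5.45 * l := by
        rw [hLe] at hm2
        nlinarith
      have hl0 : 0 < l := by linarith
      have h7 : t * ((t + 1) * (m : ℝ)) ≤ t * ((2 * t) * (5.45 * l)) := by
        have : (t + 1) * (m : ℝ) ≤ (2 * t) * (5.45 * l) := by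
          apply mul_le_mul (by linarith) hm3 (by positivity) (by positivity)
        apply mul_le_mul_of_nonneg_left this (by linarith)
      have h8 : t ≤ 1.45 * (t ^ 2 * l) := by
        have h9 : (1:ℝ) ≤ 1.45 * l := by linarith
        have h10 : t ≤ t * t := by nlinarith
        calc t ≤ (t * t) * 1 := by linarith
          _ ≤ (t * t) * (1.45 * l) := by
              apply mul_le_mul_of_nonneg_left h9 (by positivity)
          _ = 1.45 * (t ^ 2 * l) := by ring
      have h11 : 0 ≤ t ^ 2 * l := by positivity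
      nlinarith

/-- The mean of `log⁺ |p|` in terms of the number of large alternations. -/
lemma mplus_le (p : ℂ[X]) (d : ℕ) (P : ℝ → ℝ) (hPc : Continuous P)
    (hper : Function.Periodic P (2 * π))
    (hP : ∀ x : ℝ, p.eval (ex x) = ex x ^ d * (P x : ℂ)) (B : ℝ) (hB1 : 1 ≤ B) (t : ℕ)
    (halt : ¬ Alternates P B (t + 2))
    (hB : ∀ k : ℕ, |(k : ℝ) - d| ≤ 100 * (t : ℝ) ^ 2 * Real.log (1 + t) → ‖p.coeff k‖ ≤ B) :
    circleAverage (fun z => log⁺ ‖p.eval z‖) 0 1 ≤
      14 + Real.log B + 3 * Real.log (1 + t) := by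
  obtain ⟨l, ε, hε, hev, hlen, hlen0, hsign⟩ := pattern P hPc hper B (by linarith) t halt
  obtain ⟨e, he⟩ := hev
  have he2 : l.length = 2 * e := by omega
  obtain ⟨A, D, hA1, hA2, hA3, hA4⟩ := exists_A l
  set L : ℝ := (l.length : ℝ) with hLdef
  have hL2 : L = 2 * e := by rw [hLdef, he2]; push_cast; ring
  have ht0 : (0:ℝ) ≤ t := Nat.cast_nonneg _
  have hD0 : (0:ℝ) ≤ D := Nat.cast_nonneg _
  have he0 : (0:ℝ) ≤ e := Nat.cast_nonneg _
  have hlogt : 0 ≤ Real.log (1 + t) := Real.log_nonneg (by linarith)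
  -- window
  have hwin : L + 2 * D ≤ 200 * (t : ℝ) ^ 2 * Real.log (1 + t) := by
    rcases Nat.eq_zero_or_pos t with ht | ht
    · have hl0 : L = 0 := by rw [hLdef, hlen0 ht]; norm_num
      rw [hl0] at hA4 ⊢
      rw [ht]
      simpa using hA4
    · have ht1 : (1:ℝ) ≤ t := by exact_mod_cast ht
      have hLt : L ≤ 2 * t := by
        have : L ≤ t + 1 := by rw [hLdef]; exact_mod_cast hlen
        linarith
      have hL0 : 0 ≤ L := by rw [hL2]; positivity
      have h1 : Real.log (1 + L) ≤ 2 * Real.log (1 + t) := by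
        have h2 : 1 + L ≤ (1 + t) ^ 2 := by nlinarith
        have h3 := Real.log_le_log (by linarith) h2
        rw [Real.log_pow] at h3
        push_cast at h3
        exact h3
      have h4 : 0 ≤ Real.log (1 + L) := Real.log_nonneg (by linarith)
      calc L + 2 * D ≤ 24 * L ^ 2 * Real.log (1 + L) := hA4
        _ ≤ 24 * (2 * t) ^ 2 * (2 * Real.log (1 + t)) := by gcongr
        _ = 192 * (t : ℝ) ^ 2 * Real.log (1 + t) := by ring
        _ ≤ 200 * (t : ℝ) ^ 2 * Real.log (1 + t) := by
            have : 0 ≤ (t : ℝ) ^ 2 * Real.log (1 + t) := by positivity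
            nlinarith
  have h := core p d P hP l e he2 ε hε B (by linarith) hsign A D hA1 hA2 (Real.exp 2) hA3 (by
    intro k h1 h2
    apply hB
    have h1' : (d : ℝ) ≤ k + e + D := by exact_mod_cast h1
    have h2' : (k : ℝ) ≤ d + e + D := by exact_mod_cast h2
    rw [hL2] at hwin
    rw [abs_le]
    constructor <;> linarith)
  refine h.trans ?_
  have hLt : L ≤ t + 1 := by rw [hLdef]; exact_mod_cast hlen
  have hlogt2 : Real.log (1 + t) ≤ t := by
    have := Real.log_le_sub_one_of_pos (show 0 < 1 + (t:ℝ) by linarith)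
    linarith
  have h1 : 2 * (e:ℝ) + 2 * D + 3 ≤ 203 * (1 + t) ^ 3 := by
    have h5 : 200 * (t:ℝ) ^ 2 * Real.log (1 + t) ≤ 200 * (t:ℝ) ^ 2 * t := by gcongr
    rw [hL2] at hwin
    nlinarith [sq_nonneg (t:ℝ), mul_nonneg ht0 (sq_nonneg (t:ℝ))]
  have hexp : (1:ℝ) ≤ Real.exp 2 := Real.one_le_exp (by norm_num)
  have h2 : 1 + ((2 * (e:ℝ) + 2 * D + 1) * (B * Real.exp 2) + 2 * (B * Real.exp 2)) ≤
      (204 * Real.exp 2) * (B * (1 + t) ^ 3) := by
    have h3 : (2 * (e:ℝ) + 2 * D + 3) * (B * Real.exp 2) ≤ 203 * (1 + t) ^ 3 * (B * Real.exp 2) := by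
      gcongr
    have h4 : 1 ≤ (1 + (t:ℝ)) ^ 3 * (B * Real.exp 2) := by
      have h5 : (1:ℝ) ≤ (1 + (t:ℝ)) ^ 3 := one_le_pow₀ (by linarith)
      have h6 : (1:ℝ) ≤ B * Real.exp 2 := by nlinarith
      nlinarith
    nlinarith
  have h3 : Real.log (1 + ((2 * (e:ℝ) + 2 * D + 1) * (B * Real.exp 2) + 2 * (B * Real.exp 2))) ≤
      Real.log 204 + 2 + (Real.log B + 3 * Real.log (1 + t)) := by
    refine (Real.log_le_log (by positivity) h2).trans ?_
    rw [Real.log_mul (by positivity) (by positivity), Real.log_mul (by norm_num) (by positivity),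
      Real.log_mul (by positivity) (by positivity), Real.log_pow, Real.log_exp]
    push_cast
    linarith
  have hlog2' : Real.log 2 < (0.6931471808 : ℝ) := Real.log_two_lt_d9
  have h4 : Real.log 204 ≤ 8 * Real.log 2 := by
    rw [show 8 * Real.log 2 = Real.log (2 ^ 8) by rw [Real.log_pow]; push_cast; ring]
    apply Real.log_le_log <;> norm_num
  have h5 : Real.log (1 + Real.exp 2) ≤ 2 + 0.3 := by
    rw [Real.log_le_iff_le_exp (by positivity), Real.exp_add]
    have h6 : (1.3 : ℝ) ≤ Real.exp 0.3 := by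
      have := Real.add_one_le_exp (0.3:ℝ)
      linarith
    have h7 : (4 : ℝ) ≤ Real.exp 2 := by
      have h8 : Real.exp 2 = Real.exp 1 * Real.exp 1 := by rw [← Real.exp_add]; norm_num
      have h9 : (2.7182818283 : ℝ) < Real.exp 1 := Real.exp_one_gt_d9
      rw [h8]
      nlinarith
    nlinarith [Real.exp_pos 2]
  linarith

end

end Pool.Agent.H589.Osc
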